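import Pool.Agent.Lib.MP_12629d_ag.M3Main

/-!
# MP_12629d_ag : nodal rational curves on the plane blown up at generic points

The definitions used in the statement are in `Pool/Agent/Lib/MP_12629d_ag/Stmt.lean`.
-/

namespace Pool.Agent.Results.MP_12629d_ag.NodalRational

/-- **Main theorem.** Let `(d; m)` satisfy `-K·D = 3 d - ∑ m i > 0`.

* For all points `p` outside a hypersurface defined over `ℚ`: if `(d; m)` is the class of a reduced
  irreducible curve on the plane blown up at `p`, then there is a nodal rational curve of this class.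
* If the `2 r` coordinates of `p` are algebraically independent over `ℚ`, this holds for all the
  classes simultaneously. -/
theorem result :
    (∀ (r : ℕ) (d : ℤ) (m : Fin r → ℤ), 0 < 3 * d - ∑ i, m i →
      Nod.Generic (fun p : Fin r × Fin 2 → ℂ => Nod.IrredClass (Nod.hom p) d m →
        ∃ n : ℕ, (n : ℤ) = d ∧ ∃ γ : Nod.RatCurve (Nod.hom p) n m, γ.Nodal)) ∧
    (∀ (r : ℕ) (p : Fin r × Fin 2 → ℂ), AlgebraicIndependent ℚ p →
      ∀ (d : ℤ) (m : Fin r → ℤ), 0 < 3 * d - ∑ i, m i → Nod.IrredClass (Nod.hom p) d m →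
        ∃ n : ℕ, (n : ℤ) = d ∧ ∃ γ : Nod.RatCurve (Nod.hom p) n m, γ.Nodal) := by
  refine ⟨Nod.main, fun r p hp d m h => ?_⟩
  obtain ⟨H, hH, hp'⟩ := Nod.main r d m h
  refine hp' p fun h0 => hH ?_
  exact (injective_iff_map_eq_zero _).1 hp H h0

end Pool.Agent.Results.MP_12629d_ag.NodalRational
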